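import Pool.Agent.R178.HC.BaseO

set_option autoImplicit false

/-!
# The generating function of the orthogonal hook-content products

In `ℚ[t][[x]]` the series `∑_λ x^|λ| ∏_{u ∈ λ} (t + c_O(u)) / h(u)` is the infinite product of the
`A_j(x)`: its coefficient at `x ^ n` is the coefficient of the product of the first `M` factors as
soon as `n < 4 M`.
-/

namespace Pool.Agent.Results.MP_e057d9_co.OrthogonalProductFormula

open Finset Pool.Agent.R153.Sp Pool.Agent.R178.HC

/-- The indeterminate `t` of `ℚ[t]`. -/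
noncomputable def t : Polynomial ℚ := Polynomial.X

/-- `(t choose 2) = t (t - 1) / 2`. -/
noncomputable def t2 : Polynomial ℚ := Polynomial.C (1 / 2) * (t * (t - 1))

/-- `(t + 1 choose 2) = t (t + 1) / 2`. -/
noncomputable def t2' : Polynomial ℚ := Polynomial.C (1 / 2) * (t * (t + 1))

/-- `W_O(λ)`, the product over the cells of `(t + c_O) / h`. -/
noncomputable def wO (μ : YoungDiagram) : Polynomial ℚ :=
  ∏ c ∈ μ.cells, (t + Polynomial.C (cO μ c)) * Polynomial.C ((hook μ c)⁻¹)

/-- The series `∑_n (∑_{λ ⊢ n} W_O(λ)) x^n`. -/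
noncomputable def series : PowerSeries (Polynomial ℚ) :=
  PowerSeries.mk fun n => ∑ μ ∈ diagrams n, wO μ

/-- The factor `A_j(x)`; `pw k a` is the binomial series `(1 - x ^ k) ^ a`. -/
noncomputable def A (j : ℕ) : PowerSeries (Polynomial ℚ) :=
  pw (8 * j) t2 * pw (8 * j - 6) (1 - t2) * pw (4 * j - 1) t * pw (4 * j - 3) (-t) *
    pw (8 * j - 4) (t2' - 1) * pw (8 * j - 2) (1 - t2')

theorem aeval_t2 (s : ℝ) : Polynomial.aeval s t2 = s * (s - 1) / 2 := by
  unfold t2 t
  rw [map_mul, map_mul, map_sub, map_one, Polynomial.aeval_X, Polynomial.aeval_C]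
  simp only [eq_ratCast]
  push_cast
  ring

theorem aeval_t2' (s : ℝ) : Polynomial.aeval s t2' = s * (s + 1) / 2 := by
  unfold t2' t
  rw [map_mul, map_mul, map_add, map_one, Polynomial.aeval_X, Polynomial.aeval_C]
  simp only [eq_ratCast]
  push_cast
  ring

theorem evt_A (s : ℝ) (j : ℕ) : evt s (A j) = Rj s j := by
  unfold A Rj
  simp only [map_mul, evt_pw, map_sub, map_one, map_neg, aeval_t2, aeval_t2']
  unfold t
  rw [Polynomial.aeval_X]

theorem evt_series (s : ℝ) : evt s series = FO s := by
  ext n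
  rw [coeff_evt]
  unfold series FO
  rw [PowerSeries.coeff_mk, PowerSeries.coeff_mk, map_sum]
  apply sum_congr rfl
  intro μ _
  unfold wO WO t
  rw [map_prod]
  apply prod_congr rfl
  intro c _
  rw [map_mul, map_add, Polynomial.aeval_X, Polynomial.aeval_C, Polynomial.aeval_C]
  simp only [eq_ratCast, Rat.cast_inv]
  rw [div_eq_mul_inv]

theorem inf_nat : {s : ℝ | ∃ N : ℕ, s = (N : ℝ)}.Infinite := by
  apply (Set.infinite_range_of_injective (Nat.cast_injective (R := ℝ))).mono
  rintro _ ⟨N, rfl⟩
  exact ⟨N, rfl⟩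

/-- **The generating function of the orthogonal hook-content products** is the infinite product
of the `A_j(x)`, `j ≥ 1`: coefficients at `x ^ n` are already those of the product over
`1 ≤ j ≤ M` if `n < 4 M`. -/
theorem result : ∀ n M : ℕ, n < 4 * M →
    PowerSeries.coeff n series = PowerSeries.coeff n (∏ j ∈ range M, A (j + 1)) := by
  intro n M hn
  apply poly_eq_of_infinite inf_nat
  rintro s ⟨N, rfl⟩
  rw [← coeff_evt, ← coeff_evt, evt_series, map_prod]
  have h := main_O N M
  rw [qm_eq_iff] at h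
  rw [h n hn]
  unfold PP
  congr 1
  exact prod_congr rfl (fun j _ => (evt_A (N : ℝ) (j + 1)).symm)

end Pool.Agent.Results.MP_e057d9_co.OrthogonalProductFormula
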